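import Pool.Agent.H91.FP3

set_option autoImplicit false

open H91FP in
theorem Pool.Agent.Results.MP_0b3510_an.NotIso.result :
   
    ∀ (A : Type) [CStarAlgebra A] [Nontrivial A] (s : ℕ → A), CuntzGen s →
      ∃ ω₁ ω₂ : A →ₗ[ℂ] ℂ, IsState ω₁ ∧ IsState ω₂ ∧
        ∀ (D₁ D₂ : Type) [CStarAlgebra D₁] [CStarAlgebra D₂]
          (ρ₁ : D₁ →ₗ[ℂ] ℂ) (ρ₂ : D₂ →ₗ[ℂ] ℂ) (π₁ : ℕ → A →⋆ₐ[ℂ] D₁) (π₂ : ℕ → A →⋆ₐ[ℂ] D₂),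
          FreePow ω₁ ρ₁ π₁ → FreePow ω₂ ρ₂ π₂ → IsEmpty (D₁ ≃⋆ₐ[ℂ] D₂) :=
  main
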